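import Pool.Agent.Helper37_CAP.Stmts
import Pool.Agent.Common_PNT.PNT

/-!
# Squad CAP, module ASY
-/

set_option autoImplicit false

open Finset Filter Topology

namespace Pool.Agent.CAP.H37

lemma cnt_prime (X : ℕ) : cnt Nat.Prime X = Nat.primeCounting X := by
  classical
  unfold cnt
  rw [Nat.primeCounting, Nat.primeCounting', Nat.count_eq_card_filter_range]
  congr 1
  ext n
  simp only [Finset.mem_filter, Finset.mem_Icc, Finset.mem_range]
  constructor
  · rintro ⟨⟨_, h⟩, hp⟩; exact ⟨by omega, hp⟩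
  · rintro ⟨h, hp⟩; exact ⟨⟨hp.one_lt.le, by omega⟩, hp⟩

theorem asy (hBOS : BOS) (hFNB : FNB) (hCNT : CNT) : ASY := by
  obtain ⟨C, hC⟩ := hFNB
  obtain ⟨hmono, hor, -, -, -, -⟩ := hCNT
  have hpnt : Tendsto (fun X : ℕ => (Nat.primeCounting X : ℝ) / ((X : ℝ) / Real.log X)) atTop
      (nhds 1) := by
    have h := Pool.Agent.Common_PNT.tendsto_primeCounting.comp
      (tendsto_natCast_atTop_atTop (R := ℝ))
    refine h.congr ?_
    intro X
    simp
  have hup : Tendsto (fun X : ℕ => (Nat.primeCounting X : ℝ) / ((X : ℝ) / Real.log X) +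
      C / Real.log X) atTop (nhds 1) := by
    have h1 : Tendsto (fun X : ℕ => C / Real.log (X : ℝ)) atTop (nhds 0) :=
      (Real.tendsto_log_atTop.comp tendsto_natCast_atTop_atTop).const_div_atTop C
    simpa using hpnt.add h1
  unfold ASY
  refine tendsto_of_tendsto_of_tendsto_of_le_of_le' hpnt hup ?_ ?_
  · filter_upwards [eventually_ge_atTop 2] with X hX
    have hX0 : (0 : ℝ) < X := by positivity
    have hl : 0 < Real.log X := Real.log_pos (by exact_mod_cast hX)
    have h1 : cnt Nat.Prime X ≤ cnt IsOrder X := hmono _ _ X (fun n _ _ hn => hBOS n hn)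
    rw [cnt_prime] at h1
    gcongr
  · filter_upwards [eventually_ge_atTop 2] with X hX
    have hX0 : (0 : ℝ) < X := by positivity
    have hl : 0 < Real.log X := Real.log_pos (by exact_mod_cast hX)
    have h1 : cnt IsOrder X ≤ cnt (fun n => Nat.Prime n ∨ (IsOrder n ∧ ¬ n.Prime)) X := by
      refine hmono _ _ X (fun n _ _ hn => ?_)
      by_cases hp : n.Prime
      · exact Or.inl hp
      · exact Or.inr ⟨hn, hp⟩
    have h2 := h1.trans (hor Nat.Prime (fun n => IsOrder n ∧ ¬ n.Prime) X)
    have h2' : (cnt IsOrder X : ℝ) ≤ (cnt Nat.Prime X : ℝ) +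
        (cnt (fun n => IsOrder n ∧ ¬ n.Prime) X : ℝ) := by exact_mod_cast h2
    rw [cnt_prime] at h2'
    have h3 := hC X hX
    have h4 : (cnt IsOrder X : ℝ) ≤ (Nat.primeCounting X : ℝ) + C * X / Real.log X ^ 2 := by
      linarith
    calc (cnt IsOrder X : ℝ) / ((X : ℝ) / Real.log X)
        ≤ ((Nat.primeCounting X : ℝ) + C * X / Real.log X ^ 2) / ((X : ℝ) / Real.log X) := by
          gcongr
      _ = (Nat.primeCounting X : ℝ) / ((X : ℝ) / Real.log X) + C / Real.log X := by
          field_simp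

end Pool.Agent.CAP.H37
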