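import Pool.Agent.Helper37_CAP.Stmts

/-!
# Squad CAP, module CBA
-/

set_option autoImplicit false

open Finset

namespace Pool.Agent.CAP.H37

lemma modEq_of_dvd (m n : ℕ) (hm : 1 ≤ m) (hn : 1 ≤ n) (h1 : m + 1 ∣ n + 1) (h2 : m - 1 ∣ n - 1) :
    n ≡ m [MOD Nat.lcm (m + 1) (m - 1)] := by
  rw [Nat.modEq_iff_dvd]
  have e1 : ((m + 1 : ℕ) : ℤ) ∣ (m : ℤ) - n := by
    obtain ⟨a, ha⟩ := h1
    refine ⟨1 - a, ?_⟩
    have : ((n + 1 : ℕ) : ℤ) = ((m + 1 : ℕ) : ℤ) * a := by rw [ha]; push_cast; ring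
    push_cast at this ⊢
    linarith
  have e2 : ((m - 1 : ℕ) : ℤ) ∣ (m : ℤ) - n := by
    obtain ⟨a, ha⟩ := h2
    refine ⟨1 - a, ?_⟩
    have : ((n - 1 : ℕ) : ℤ) = ((m - 1 : ℕ) : ℤ) * a := by rw [ha]; push_cast; ring
    rw [Nat.cast_sub hn] at this
    rw [Nat.cast_sub hm] at this ⊢
    push_cast at this ⊢
    linarith
  rw [Int.natCast_dvd] at e1 e2 ⊢
  exact Nat.lcm_dvd e1 e2

lemma lcm_lower (m : ℕ) (hm : 2 ≤ m) :
    ((m : ℝ) - 1) * (m + 1) / 2 ≤ (Nat.lcm (m + 1) (m - 1) : ℝ) := by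
  have h1 : Nat.gcd (m + 1) (m - 1) ≤ 2 := by
    have : Nat.gcd (m + 1) (m - 1) ∣ 2 := by
      have := Nat.dvd_sub (Nat.gcd_dvd_left (m + 1) (m - 1)) (Nat.gcd_dvd_right (m + 1) (m - 1))
      have e : m + 1 - (m - 1) = 2 := by omega
      rwa [e] at this
    exact Nat.le_of_dvd (by norm_num) this
  have h2 : Nat.gcd (m + 1) (m - 1) * Nat.lcm (m + 1) (m - 1) = (m + 1) * (m - 1) :=
    Nat.gcd_mul_lcm _ _
  have h3 : (m + 1) * (m - 1) ≤ 2 * Nat.lcm (m + 1) (m - 1) := by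
    rw [← h2]; exact Nat.mul_le_mul_right _ h1
  have h4 : (((m + 1) * (m - 1) : ℕ) : ℝ) ≤ 2 * (Nat.lcm (m + 1) (m - 1) : ℝ) := by
    exact_mod_cast h3
  rw [Nat.cast_mul, Nat.cast_sub (by omega)] at h4
  push_cast at h4
  linarith

lemma sum_telescope (z k : ℕ) (hz : 2 ≤ z) :
    ∑ m ∈ Finset.Ico z (z + k), 2 / (((m : ℝ) - 1) * (m + 1)) =
      (1 / ((z : ℝ) - 1) + 1 / z) - (1 / ((z + k : ℝ) - 1) + 1 / (z + k)) := by
  induction k with
  | zero => simp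
  | succ k ih =>
    rw [← add_assoc, Finset.sum_Ico_succ_top (by omega), ih]
    have hz' : (2 : ℝ) ≤ z := by exact_mod_cast hz
    have hk : (0 : ℝ) ≤ k := Nat.cast_nonneg k
    have a1 : (z : ℝ) + k - 1 ≠ 0 := by linarith
    have a2 : (z : ℝ) + k ≠ 0 := by linarith
    have a3 : (z : ℝ) + k + 1 ≠ 0 := by linarith
    have a4 : (z : ℝ) - 1 ≠ 0 := by linarith
    have a5 : (z : ℝ) ≠ 0 := by linarith
    have e1 : (z : ℝ) + (k + 1) - 1 = z + k := by ring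
    push_cast
    rw [e1, ← add_assoc]
    field_simp
    ring

theorem cba (hCNT : CNT) : CBA := by
  obtain ⟨hmono, -, hsum, hmod, -, -⟩ := hCNT
  intro z X hz hX
  have hz' : (2 : ℝ) ≤ z := by exact_mod_cast hz
  have hX' : (1 : ℝ) ≤ X := by exact_mod_cast hX
  set N := Nat.sqrt X + 2 with hN
  have h1 : cnt (E1 z) X ≤ cnt (fun n => ∃ m ∈ Finset.Ico z N,
      n ≡ m [MOD Nat.lcm (m + 1) (m - 1)]) X := by
    refine hmono _ _ X ?_
    rintro n hn1 hnX ⟨m, hzm, hm2, hd1, hd2⟩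
    refine ⟨m, ?_, modEq_of_dvd m n (by omega) hn1 hd1 hd2⟩
    rw [Finset.mem_Ico]
    refine ⟨hzm, ?_⟩
    have : m - 1 ≤ Nat.sqrt X := by
      rw [Nat.le_sqrt']
      exact hm2.trans hnX
    omega
  have h2 := h1.trans (hsum ℕ (Finset.Ico z N)
    (fun m n => n ≡ m [MOD Nat.lcm (m + 1) (m - 1)]) X)
  have h3 : (cnt (E1 z) X : ℝ) ≤ ∑ m ∈ Finset.Ico z N,
      ((X : ℝ) * (2 / (((m : ℝ) - 1) * (m + 1))) + 1) := by
    have h2' : (cnt (E1 z) X : ℝ) ≤ ∑ m ∈ Finset.Ico z N,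
      (cnt (fun n => n ≡ m [MOD Nat.lcm (m + 1) (m - 1)]) X : ℝ) := by exact_mod_cast h2
    refine h2'.trans (Finset.sum_le_sum ?_)
    intro m hm
    rw [Finset.mem_Ico] at hm
    have hm2 : 2 ≤ m := by omega
    have hm2' : (2 : ℝ) ≤ m := by exact_mod_cast hm2
    have hpos : 1 ≤ Nat.lcm (m + 1) (m - 1) :=
      Nat.lcm_pos (by omega) (by omega)
    refine (hmod m _ X hpos).trans ?_
    have h4 := lcm_lower m hm2
    have h5 : (0 : ℝ) < ((m : ℝ) - 1) * (m + 1) / 2 := by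
      have : (0 : ℝ) < (m : ℝ) - 1 := by linarith
      positivity
    have h6 : (X : ℝ) / (Nat.lcm (m + 1) (m - 1) : ℝ) ≤ (X : ℝ) / (((m : ℝ) - 1) * (m + 1) / 2) :=
      div_le_div_of_nonneg_left (by positivity) h5 h4
    have h7 : (X : ℝ) / (((m : ℝ) - 1) * (m + 1) / 2) =
        (X : ℝ) * (2 / (((m : ℝ) - 1) * (m + 1))) := by
      rw [div_eq_mul_inv, inv_div]
    linarith
  refine h3.trans ?_
  have hsq : (Nat.sqrt X : ℝ) ≤ Real.sqrt X := Real.nat_sqrt_le_real_sqrt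
  have hs0 : 0 ≤ Real.sqrt (X : ℝ) := Real.sqrt_nonneg _
  rcases Nat.lt_or_ge N z with hNz | hNz
  · rw [Finset.Ico_eq_empty (by omega), Finset.sum_empty]
    positivity
  · obtain ⟨k, hk⟩ := Nat.exists_eq_add_of_le hNz
    rw [Finset.sum_add_distrib, ← Finset.mul_sum, hk, sum_telescope z k hz]
    simp only [Finset.sum_const, Nat.card_Ico, nsmul_eq_mul, mul_one]
    have hk' : ((z + k - z : ℕ) : ℝ) ≤ Real.sqrt X := by
      have : z + k - z ≤ Nat.sqrt X := by omega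
      exact (Nat.cast_le.mpr this).trans hsq
    have hk0 : (0 : ℝ) ≤ k := Nat.cast_nonneg k
    have b1 : 0 ≤ 1 / ((z + k : ℝ) - 1) + 1 / (z + k) := by
      have : (0 : ℝ) < (z + k : ℝ) - 1 := by linarith
      positivity
    have b2 : 1 / ((z : ℝ) - 1) ≤ 2 / z := by
      rw [div_le_div_iff₀ (by linarith) (by linarith)]
      linarith
    have b3 : (X : ℝ) * ((1 / ((z : ℝ) - 1) + 1 / z) - (1 / ((z + k : ℝ) - 1) + 1 / (z + k))) ≤
        X * (3 / z) := by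
      refine mul_le_mul_of_nonneg_left ?_ (by linarith)
      have : 2 / (z : ℝ) + 1 / z = 3 / z := by rw [← add_div]; norm_num
      linarith
    have b4 : (X : ℝ) * (3 / z) ≤ 4 * X / z := by
      rw [mul_div_assoc']
      apply div_le_div_of_nonneg_right _ (by linarith)
      linarith
    linarith

end Pool.Agent.CAP.H37
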