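import Pool.Agent.Helper37_CAP.Stmts

/-!
# Squad CAP, module CLA: classification of composite orders
-/

set_option autoImplicit false

open Finset

namespace Pool.Agent.CAP.H37

lemma dvd_iff_pow (p j u : ℕ) (hp : 1 ≤ p) : u ∣ p ^ j - 1 ↔ (p : ZMod u) ^ j = 1 := by
  rw [← ZMod.natCast_eq_zero_iff, Nat.cast_sub (Nat.one_le_pow _ _ hp), sub_eq_zero]
  push_cast
  rfl

lemma ord_dvd_totient (p u : ℕ) (h : Nat.Coprime p u) :
    orderOf (p : ZMod u) ∣ Nat.totient u := by
  rw [orderOf_dvd_iff_pow_eq_one]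
  have := Nat.ModEq.pow_totient h
  have h2 := (ZMod.natCast_eq_natCast_iff _ _ _).2 this
  push_cast at h2
  exact h2

lemma ord_pos (p u : ℕ) (hu : 0 < u) (h : Nat.Coprime p u) : 0 < orderOf (p : ZMod u) :=
  Nat.pos_of_dvd_of_pos (ord_dvd_totient p u h) (Nat.totient_pos.2 hu)

lemma ord_le (p u : ℕ) (hu : 0 < u) (h : Nat.Coprime p u) : orderOf (p : ZMod u) ≤ u :=
  (Nat.le_of_dvd (Nat.totient_pos.2 hu) (ord_dvd_totient p u h)).trans (Nat.totient_le u)

lemma dvd_ord (p u : ℕ) (hp : 1 ≤ p) : u ∣ p ^ (orderOf (p : ZMod u)) - 1 := by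
  rw [dvd_iff_pow _ _ _ hp, pow_orderOf_eq_one]

lemma ord_dvd_of_dvd (p u v : ℕ) (hp : 1 ≤ p) (h : u ∣ v) :
    orderOf (p : ZMod u) ∣ orderOf (p : ZMod v) := by
  rw [orderOf_dvd_iff_pow_eq_one, ← dvd_iff_pow _ _ _ hp]
  exact h.trans (dvd_ord p v hp)

lemma cong_one (κ : ℕ) : ∀ y : ℕ, (∀ w : ℕ, w.Prime → w ∣ y → κ ∣ w - 1) → 1 ≤ y →
    y ≡ 1 [MOD κ] := by
  intro y
  induction y using induction_on_primes with
  | zero => intro _ h; omega
  | one => intro _ _; rfl
  | prime_mul q a hq ih =>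
    intro h h1
    have ha : 1 ≤ a := by
      rcases Nat.eq_zero_or_pos a with h0 | h0
      · subst h0; simp at h1
      · exact h0
    have h2 := ih (fun w hw hwa => h w hw (hwa.mul_left q)) ha
    have h3 : q ≡ 1 [MOD κ] := by
      have h4 := h q hq (dvd_mul_right q a)
      exact ((Nat.modEq_iff_dvd' hq.one_le).2 h4).symm
    simpa using Nat.ModEq.mul h3 h2

lemma exists_mul_of_cong {κ y : ℕ} (h : y ≡ 1 [MOD κ]) (hy : 2 ≤ y) :
    ∃ i, 1 ≤ i ∧ y = 1 + κ * i := by
  have h1 := (Nat.modEq_iff_dvd' (show 1 ≤ y by omega)).1 h.symm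
  obtain ⟨i, hi⟩ := h1
  refine ⟨i, ?_, by omega⟩
  rcases Nat.eq_zero_or_pos i with h0 | h0
  · subst h0; omega
  · exact h0

theorem cla (hS : SMD) : CLA := by
  intro z n hz hn hnp hA
  by_contra hcon
  push Not at hcon
  obtain ⟨hE0, hE1, hE3, hE4, hE5, hE6, hE7⟩ := hcon
  set p := n.minFac with hp
  have hpp : p.Prime := Nat.minFac_prime (by omega)
  have hpn : p ∣ n := Nat.minFac_dvd n
  have hp2 : p ^ 2 ≤ n := Nat.minFac_sq_le_self (by omega) hnp
  have hp1 : 1 ≤ p := hpp.one_le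
  have hnp1 : n + 1 ∣ n ^ 2 - 1 := ⟨n - 1, by
    obtain ⟨m, rfl⟩ : ∃ m, n = m + 1 := ⟨n - 1, by omega⟩
    simp only [Nat.add_sub_cancel]
    rw [Nat.sub_eq_iff_eq_add (by nlinarith)]
    ring⟩
  have hnm1 : n - 1 ∣ n ^ 2 - 1 := ⟨n + 1, by
    obtain ⟨m, rfl⟩ : ∃ m, n = m + 1 := ⟨n - 1, by omega⟩
    simp only [Nat.add_sub_cancel]
    rw [Nat.sub_eq_iff_eq_add (by nlinarith)]
    ring⟩
  have hcop : Nat.Coprime p (n ^ 2 - 1) := by
    rw [Nat.Prime.coprime_iff_not_dvd hpp]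
    intro h
    have h1 : p ∣ n ^ 2 := hpn.trans (dvd_pow_self n (by norm_num))
    have h2 : p ∣ n ^ 2 - (n ^ 2 - 1) := Nat.dvd_sub h1 h
    have h3 : n ^ 2 - (n ^ 2 - 1) = 1 := by
      have : 1 ≤ n ^ 2 := Nat.one_le_pow _ _ (by omega)
      omega
    rw [h3] at h2
    exact hpp.one_lt.ne' (Nat.dvd_one.1 h2)
  have hcopd : ∀ u, u ∣ n ^ 2 - 1 → Nat.Coprime p u := fun u hu => hcop.coprime_dvd_right hu
  have hN0 : 0 < n ^ 2 - 1 := by
    have : 4 ≤ n ^ 2 := by nlinarith
    omega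
  set κ := orderOf (p : ZMod (n ^ 2 - 1)) with hκ
  have hκ0 : 0 < κ := ord_pos p _ hN0 hcop
  have hz5 : z ^ 2 ≤ z ^ 5 := Nat.pow_le_pow_right (by omega) (by norm_num)
  have hz52 : z ≤ z ^ 5 := by
    calc z = z ^ 1 := (pow_one z).symm
      _ ≤ z ^ 5 := Nat.pow_le_pow_right (by omega) (by norm_num)
  have hz55 : z < z ^ 5 := by
    have h2 : z * 2 ≤ z * z ^ 4 := Nat.mul_le_mul_left z (by
      calc 2 ≤ 2 ^ 4 := by norm_num
        _ ≤ z ^ 4 := Nat.pow_le_pow_left hz 4)
    have h3 : z * z ^ 4 = z ^ 5 := by ring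
    omega
  -- the basic fact
  have fact : ∀ s, s ∣ n + 1 → z < s → κ ∣ orderOf (p : ZMod s) := by
    intro s hs hzs
    have h1 := hA p hpp hpn (orderOf (p : ZMod s))
    set a := Nat.gcd (p ^ (orderOf (p : ZMod s)) - 1) (n + 1) with ha
    have h2 : s ∣ a := Nat.dvd_gcd (dvd_ord p s hp1) hs
    have ha0 : 0 < a := Nat.gcd_pos_of_pos_right _ (by omega)
    have h3 : s ≤ a := Nat.le_of_dvd ha0 h2
    obtain ⟨h4, h5⟩ := h1 (by omega)
    rcases h5 with h5 | h5
    · exfalso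
      apply hE1
      refine ⟨a - 1, by omega, ?_, ?_, ?_⟩
      · have : a - 1 - 1 = Nat.gcd (p ^ (orderOf (p : ZMod s)) - 1) (n - 1) := by omega
        rw [this]; exact h5
      · have : a - 1 + 1 = a := by omega
        rw [this]; exact Nat.gcd_dvd_right _ _
      · have : a - 1 - 1 = Nat.gcd (p ^ (orderOf (p : ZMod s)) - 1) (n - 1) := by omega
        rw [this]; exact Nat.gcd_dvd_right _ _
    · rw [hκ, orderOf_dvd_iff_pow_eq_one, ← dvd_iff_pow _ _ _ hp1]
      exact h5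
  have hκdvd : n ^ 2 - 1 ∣ p ^ κ - 1 := dvd_ord p _ hp1
  rcases Nat.lt_or_ge (z ^ 5) κ with hk | hk
  · -- large order
    obtain ⟨s, Y, hsY, hY, hs⟩ := hS z (n + 1) hz (by omega)
    have hs0 : 1 ≤ s := by
      rcases Nat.eq_zero_or_pos s with h0 | h0
      · subst h0; omega
      · exact h0
    have hsz : s ≤ z := by
      rcases hs with hs | ⟨u, hus, hzu, huz⟩
      · exact hs
      · exfalso
        have hun : u ∣ n + 1 := hus.trans ⟨Y, hsY⟩
        have h1 := fact u hun hzu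
        have h2 := ord_le p u (by omega) (hcopd u (hun.trans hnp1))
        have h3 := Nat.le_of_dvd (ord_pos p u (by omega) (hcopd u (hun.trans hnp1))) h1
        omega
    have hY0 : Y ≠ 0 := by
      rintro rfl
      simp at hsY
    have hY1 : Y ≠ 1 := by
      rintro rfl
      omega
    have hprime : ∀ w, w.Prime → w ∣ Y → κ ∣ w - 1 := by
      intro w hw hwY
      have hwn : w ∣ n + 1 := by rw [hsY]; exact hwY.mul_left s
      have h1 := fact w hwn (hY w hw hwY)
      have h2 := ord_dvd_totient p w (hcopd w (hwn.trans hnp1))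
      rw [Nat.totient_prime hw] at h2
      exact h1.trans h2
    have hdiv : ∀ y, y ∣ Y → y ≡ 1 [MOD κ] := by
      intro y hy
      apply cong_one κ y (fun w hw hwy => hprime w hw (hwy.trans hy))
      exact Nat.pos_of_dvd_of_pos hy (Nat.pos_of_ne_zero hY0)
    by_cases hYp : Y.Prime
    · -- Y prime
      have hn1 : 1 ≤ n - 1 := by omega
      have hE4b : ¬ Smooth (z ^ 12) (n - 1) := fun h => hE4 (Or.inr h)
      unfold Smooth at hE4b
      push Not at hE4b
      obtain ⟨w', hw', hw'n, hw'z⟩ := hE4b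
      have hw'N : w' ∣ n ^ 2 - 1 := hw'n.trans hnm1
      set e := orderOf (p : ZMod w') with he
      have he0 : 0 < e := ord_pos p w' hw'.pos (hcopd w' hw'N)
      have hez : z ^ 5 < e := by
        by_contra hcon
        apply hE3
        exact ⟨p, e, w', hpp, hpn, hp2, he0, by omega, hw', hw'z, hw'N, dvd_ord p w' hp1⟩
      have heκ : e ∣ κ := ord_dvd_of_dvd p w' _ hp1 hw'N
      have hew' : e ∣ w' - 1 := by
        have := ord_dvd_totient p w' (hcopd w' hw'N)
        rwa [Nat.totient_prime hw'] at this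
      obtain ⟨s', hs'⟩ := hw'n
      have hs'0 : 1 ≤ s' := by
        rcases Nat.eq_zero_or_pos s' with h0 | h0
        · subst h0; omega
        · exact h0
      have hw'1 : w' ≡ 1 [MOD e] := ((Nat.modEq_iff_dvd' hw'.one_le).2 hew').symm
      have hY1' : Y ≡ 1 [MOD e] := (hdiv Y dvd_rfl).of_dvd heκ
      have hcong : s' + 2 ≡ s [MOD e] := by
        have h1 : w' * s' ≡ 1 * s' [MOD e] := hw'1.mul_right s'
        have h2 : s * Y ≡ s * 1 [MOD e] := hY1'.mul_left s
        rw [← hs', one_mul] at h1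
        rw [← hsY, mul_one] at h2
        have h3 : n - 1 + 2 = n + 1 := by omega
        have h4 : n - 1 + 2 ≡ s' + 2 [MOD e] := h1.add_right 2
        rw [h3] at h4
        exact h4.symm.trans h2
      have hle : s ≤ s' + 2 := by
        by_contra hlt
        have h1 := (Nat.modEq_iff_dvd' (show s' + 2 ≤ s by omega)).1 hcong
        have h2 := Nat.le_of_dvd (by omega) h1
        omega
      have h1 := (Nat.modEq_iff_dvd' hle).1 hcong.symm
      obtain ⟨b, hb⟩ := h1
      rcases Nat.eq_zero_or_pos b with hb0 | hb0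
      · -- special family
        subst hb0
        apply hE7
        refine ⟨s - 1, Y, w', by omega, by omega, hYp, hw', ?_, ?_⟩
        · have : s - 1 + 1 = s := by omega
          rw [this]; exact hsY
        · have : s - 1 - 1 = s' := by omega
          rw [this, mul_comm s' w', ← hs']; omega
      · obtain ⟨i, hi1, hi⟩ := exists_mul_of_cong hw'1 hw'.two_le
        apply hE6
        refine ⟨s, s', e, b, i, hs0, hsz, hez, hb0, hi1, by omega, ?_⟩
        rw [← hi, mul_comm s' w', ← hs']; omega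
    · -- Y composite
      have hm1 : Y.minFac ∣ Y := Nat.minFac_dvd Y
      obtain ⟨y2, hy2⟩ := hm1
      have hy1p : Y.minFac.Prime := Nat.minFac_prime hY1
      have hy22 : 2 ≤ y2 := by
        rcases Nat.lt_or_ge y2 2 with h | h
        · exfalso
          interval_cases y2
          · simp at hy2; exact hY0 hy2
          · rw [mul_one] at hy2
            rw [hy2] at hYp
            exact hYp hy1p
        · exact h
      obtain ⟨i, hi1, hi⟩ := exists_mul_of_cong (hdiv _ (Nat.minFac_dvd Y)) hy1p.two_le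
      obtain ⟨j, hj1, hj⟩ := exists_mul_of_cong (hdiv y2 ⟨Y.minFac, by rw [mul_comm]; exact hy2⟩) hy22
      apply hE5
      refine ⟨s, κ, i, j, hs0, hsz, hk, hi1, hj1, ?_⟩
      rw [← hi, ← hj, mul_assoc, ← hy2, ← hsY]
  · -- small order
    have hE4a : ¬ Smooth (z ^ 12) (n + 1) := fun h => hE4 (Or.inl h)
    unfold Smooth at hE4a
    push Not at hE4a
    obtain ⟨w, hw, hwn, hwz⟩ := hE4a
    apply hE3
    exact ⟨p, κ, w, hpp, hpn, hp2, hκ0, hk, hw, hwz, hwn.trans hnp1, (hwn.trans hnp1).trans hκdvd⟩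

end Pool.Agent.CAP.H37
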