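import Mathlib

/-!
# Squad CAP (MP_a03075_co): orders of cyclic affine planes

Definitions.
-/

set_option autoImplicit false

open Finset

namespace Pool.Agent.CAP

/-- A finite affine plane of order `n ≥ 2` with point set `P` and set of lines `L`: it has `n ^ 2`
points, every line carries `n` points, any two distinct points lie on exactly one line, and the
parallel axiom holds. -/
structure AffinePlane (n : ℕ) (P : Type) (L : Set (Set P)) : Prop where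
  two_le : 2 ≤ n
  card : Nat.card P = n ^ 2
  line : ∀ S ∈ L, S.ncard = n
  join : ∀ x y : P, x ≠ y → ∃! S : Set P, S ∈ L ∧ x ∈ S ∧ y ∈ S
  par : ∀ S ∈ L, ∀ x : P, x ∉ S → ∃! T : Set P, T ∈ L ∧ x ∈ T ∧ Disjoint S T

/-- The plane is cyclic: some collineation `σ` fixes a point `o`, and its powers act transitively
on the other points. -/
def Cyclic (P : Type) (L : Set (Set P)) : Prop :=
  ∃ (σ : Equiv.Perm P) (o : P), (∀ S : Set P, S ∈ L ↔ ⇑σ '' S ∈ L) ∧ σ o = o ∧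
    ∀ x y : P, x ≠ o → y ≠ o → ∃ i : ℕ, (σ ^ i) x = y

/-- `n` is the order of a cyclic affine plane. -/
def IsOrder (n : ℕ) : Prop :=
  ∃ (P : Type) (L : Set (Set P)), AffinePlane n P L ∧ Cyclic P L

/-- The reduction `Z / k (k + 2) → Z / (k + 2)`. (The order of the plane is `n = k + 1`.) -/
def pr (k : ℕ) : ZMod (k * (k + 2)) →+* ZMod (k + 2) :=
  ZMod.castHom (Dvd.intro_left k rfl) (ZMod (k + 2))

/-- `D` is a cyclic affine difference set of order `k + 1`: it has `k + 1` elements, every `g`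
outside the subgroup `pr = 0` is a difference in exactly one way, and the subgroup contains no
nonzero difference. -/
structure ADS (k : ℕ) (D : Finset (ZMod (k * (k + 2)))) : Prop where
  card : D.card = k + 1
  ex : ∀ g, pr k g ≠ 0 → ∃ d ∈ D, ∃ d' ∈ D, d - d' = g
  uniq : ∀ a ∈ D, ∀ b ∈ D, ∀ c ∈ D, ∀ d ∈ D, a - b = c - d → a ≠ b → a = c ∧ b = d
  inj : ∀ a ∈ D, ∀ b ∈ D, pr k a = pr k b → a = b

/-- The arithmetic property of the order `n` that is proved with the multiplier theorem and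
fixed subplanes. -/
def Arith (n : ℕ) : Prop :=
  ∀ p : ℕ, p.Prime → p ∣ n → ∀ j : ℕ, 3 ≤ Nat.gcd (p ^ j - 1) (n + 1) →
    Nat.gcd (p ^ j - 1) (n - 1) + 2 = Nat.gcd (p ^ j - 1) (n + 1) ∧
    (Nat.gcd (p ^ j - 1) (n - 1) ^ 2 ≤ n ∨ n ^ 2 - 1 ∣ p ^ j - 1)

open Classical in
/-- The number of `n` with `1 ≤ n ≤ X` and `E n`. -/
noncomputable def cnt (E : ℕ → Prop) (X : ℕ) : ℕ := ((Finset.Icc 1 X).filter E).card

/-- all prime factors are at most `y` -/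
def Smooth (y n : ℕ) : Prop := ∀ q : ℕ, q.Prime → q ∣ n → q ≤ y

/-- exceptional sets of the classification, depending on a parameter `z` -/
def E1 (z n : ℕ) : Prop := ∃ m : ℕ, z ≤ m ∧ (m - 1) ^ 2 ≤ n ∧ m + 1 ∣ n + 1 ∧ m - 1 ∣ n - 1

def E3 (z n : ℕ) : Prop :=
  ∃ p κ w : ℕ, p.Prime ∧ p ∣ n ∧ p ^ 2 ≤ n ∧ 1 ≤ κ ∧ κ ≤ z ^ 5 ∧ w.Prime ∧ z ^ 12 < w ∧
    w ∣ n ^ 2 - 1 ∧ w ∣ p ^ κ - 1

def E4 (z n : ℕ) : Prop := Smooth (z ^ 12) (n + 1) ∨ Smooth (z ^ 12) (n - 1)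

def E5 (z n : ℕ) : Prop :=
  ∃ s κ i j : ℕ, 1 ≤ s ∧ s ≤ z ∧ z ^ 5 < κ ∧ 1 ≤ i ∧ 1 ≤ j ∧
    n + 1 = s * (1 + κ * i) * (1 + κ * j)

def E6 (z n : ℕ) : Prop :=
  ∃ s s' e b i : ℕ, 1 ≤ s ∧ s ≤ z ∧ z ^ 5 < e ∧ 1 ≤ b ∧ 1 ≤ i ∧ s' + 2 = s + e * b ∧
    n = s' * (1 + e * i) + 1

/-- the special family -/
def E7 (z n : ℕ) : Prop :=
  ∃ m q q' : ℕ, 2 ≤ m ∧ m ≤ z ∧ q.Prime ∧ q'.Prime ∧ n + 1 = (m + 1) * q ∧ n = (m - 1) * q' + 1

end Pool.Agent.CAP
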