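import Pool.Agent.Helper37_CAP.Stmts

/-!
# Squad CAP: counting functions as cardinalities of sets
-/

set_option autoImplicit false

open Finset

namespace Pool.Agent.CAP.H37

lemma ncard_eq (E : ℕ → Prop) (X : ℕ) (h0 : ¬ E 0) :
    ({n : ℕ | n ≤ X ∧ E n}.ncard : ℕ) = cnt E X := by
  classical
  unfold cnt
  rw [← Set.ncard_coe_finset]
  congr 1
  ext n
  simp only [Set.mem_setOf_eq, Finset.coe_filter, Finset.mem_Icc]
  constructor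
  · rintro ⟨h1, h2⟩
    refine ⟨⟨?_, h1⟩, h2⟩
    rcases Nat.eq_zero_or_pos n with h | h
    · subst h; exact absurd h2 h0
    · exact h
  · rintro ⟨⟨_, h1⟩, h2⟩
    exact ⟨h1, h2⟩

lemma not_isOrder_zero : ¬ IsOrder 0 := by
  rintro ⟨P, L, h, _⟩
  exact absurd h.two_le (by norm_num)

theorem final (hA : ASY) (hB : FNB) (hC : FNA) :
    Filter.Tendsto (fun X : ℕ => ({n : ℕ | n ≤ X ∧ IsOrder n}.ncard : ℝ) / (X / Real.log X))
      Filter.atTop (nhds 1) ∧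
    (∃ C : ℝ, ∀ X : ℕ, 2 ≤ X →
      ({n : ℕ | n ≤ X ∧ (IsOrder n ∧ ¬ n.Prime)}.ncard : ℝ) ≤ C * X / Real.log X ^ 2) ∧
    (∃ c C : ℝ, 0 < c ∧ ∀ X : ℕ, 2 ≤ X →
      ({n : ℕ | n ≤ X ∧ (IsOrder n ∧ ¬ n.Prime ∧
        ¬ ∃ m q q' : ℕ, 2 ≤ m ∧ (m : ℝ) ≤ Real.exp (c * Real.sqrt (Real.log X)) ∧ q.Prime ∧
          q'.Prime ∧ n + 1 = (m + 1) * q ∧ n - 1 = (m - 1) * q')}.ncard : ℝ) ≤
        C * X * Real.exp (-(c * Real.sqrt (Real.log X)))) := by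
  refine ⟨?_, ?_, ?_⟩
  · refine hA.congr ?_
    intro X
    rw [ncard_eq IsOrder X not_isOrder_zero]
  · obtain ⟨C, h⟩ := hB
    refine ⟨C, fun X hX => ?_⟩
    rw [ncard_eq (fun n => IsOrder n ∧ ¬ n.Prime) X (fun h => not_isOrder_zero h.1)]
    exact h X hX
  · obtain ⟨c, C, hc, h⟩ := hC
    refine ⟨c, C, hc, fun X hX => ?_⟩
    rw [ncard_eq (fun n => IsOrder n ∧ ¬ n.Prime ∧
        ¬ ∃ m q q' : ℕ, 2 ≤ m ∧ (m : ℝ) ≤ Real.exp (c * Real.sqrt (Real.log X)) ∧ q.Prime ∧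
          q'.Prime ∧ n + 1 = (m + 1) * q ∧ n - 1 = (m - 1) * q') X
        (fun h => not_isOrder_zero h.1)]
    exact h X hX

end Pool.Agent.CAP.H37
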