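import Pool.Agent.Helper37_CAP.Wire

/-!
# Squad CAP: final statements
-/

set_option autoImplicit false

open Finset

namespace Pool.Agent.CAP.H37

lemma rare_of (hBOS : BOS) (hFNB : FNB) (hCNT : CNT) :
    ∃ C : ℝ, ∀ X : ℕ, 2 ≤ X →
      |({n : ℕ | n ≤ X ∧ IsOrder n}.ncard : ℝ) - Nat.primeCounting X| ≤
        C * X / Real.log X ^ 2 := by
  obtain ⟨C, hC⟩ := hFNB
  obtain ⟨hmono, hor, -, -, -, -⟩ := hCNT
  refine ⟨C, fun X hX => ?_⟩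
  rw [ncard_eq IsOrder X not_isOrder_zero]
  have h1 : cnt Nat.Prime X ≤ cnt IsOrder X := hmono _ _ X (fun n _ _ hn => hBOS n hn)
  have h2 : cnt IsOrder X ≤ cnt (fun n => Nat.Prime n ∨ (IsOrder n ∧ ¬ n.Prime)) X := by
    refine hmono _ _ X (fun n _ _ hn => ?_)
    by_cases hp : n.Prime
    · exact Or.inl hp
    · exact Or.inr ⟨hn, hp⟩
  have h3 := h2.trans (hor Nat.Prime (fun n => IsOrder n ∧ ¬ n.Prime) X)
  rw [cnt_prime] at h1 h3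
  have h1' : (Nat.primeCounting X : ℝ) ≤ cnt IsOrder X := by exact_mod_cast h1
  have h3' : (cnt IsOrder X : ℝ) ≤ (Nat.primeCounting X : ℝ) +
      (cnt (fun n => IsOrder n ∧ ¬ n.Prime) X : ℝ) := by exact_mod_cast h3
  rw [abs_of_nonneg (by linarith)]
  have := hC X hX
  linarith

theorem rare : ∃ C : ℝ, ∀ X : ℕ, 2 ≤ X →
      |({n : ℕ | n ≤ X ∧ IsOrder n}.ncard : ℝ) - Nat.primeCounting X| ≤
        C * X / Real.log X ^ 2 :=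
  rare_of H10.bos both.2 H70.cnt_basic

theorem structure_thm :
    ∃ c C : ℝ, 0 < c ∧ ∀ X : ℕ, 2 ≤ X →
      ({n : ℕ | n ≤ X ∧ IsOrder n ∧ ¬ n.Prime ∧
        ¬ ∃ m q q' : ℕ, 2 ≤ m ∧ (m : ℝ) ≤ Real.exp (c * Real.sqrt (Real.log X)) ∧ q.Prime ∧
          q'.Prime ∧ n + 1 = (m + 1) * q ∧ n - 1 = (m - 1) * q'}.ncard : ℝ) ≤
        C * X * Real.exp (-(c * Real.sqrt (Real.log X))) := by
  obtain ⟨c, C, hc, h⟩ := both.1
  refine ⟨c, C, hc, fun X hX => ?_⟩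
  rw [ncard_eq (fun n => IsOrder n ∧ ¬ n.Prime ∧
      ¬ ∃ m q q' : ℕ, 2 ≤ m ∧ (m : ℝ) ≤ Real.exp (c * Real.sqrt (Real.log X)) ∧ q.Prime ∧
        q'.Prime ∧ n + 1 = (m + 1) * q ∧ n - 1 = (m - 1) * q') X
      (fun h => not_isOrder_zero h.1)]
  exact h X hX

end Pool.Agent.CAP.H37
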