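import Pool.Agent.Helper37_CAP.Defs

/-!
# Squad CAP (MP_a03075_co): statements of the modules
-/

set_option autoImplicit false

open Finset

namespace Pool.Agent.CAP

/-! ## Part I: from the plane to arithmetic -/

/-- PLA: coordinates from the cyclic group. -/
def PLA : Prop :=
  ∀ (P : Type) (M : ℕ) (σ : Equiv.Perm P) (o : P), 1 ≤ M → Nat.card P = M + 1 → σ o = o →
    (∀ x y : P, x ≠ o → y ≠ o → ∃ i : ℕ, (σ ^ i) x = y) →
    ∃ f : ZMod M → P, Function.Injective f ∧ (∀ x, x ≠ o ↔ ∃ i, f i = x) ∧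
      ∀ i, f (i + 1) = σ (f i)

/-- PLN: from the coordinates to the difference set. -/
def PLN : Prop :=
  ∀ (k : ℕ) (P : Type) (L : Set (Set P)) (σ : Equiv.Perm P) (o : P)
    (f : ZMod (k * (k + 2)) → P), AffinePlane (k + 1) P L →
    (∀ S : Set P, S ∈ L ↔ ⇑σ '' S ∈ L) → σ o = o → Function.Injective f →
    (∀ x, x ≠ o ↔ ∃ i, f i = x) → (∀ i, f (i + 1) = σ (f i)) → ∃ D, ADS k D

/-- DSE: a difference set meets all cosets but one. -/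
def DSE : Prop :=
  ∀ (k : ℕ) (D : Finset (ZMod (k * (k + 2)))), 1 ≤ k → ADS k D →
    ∃ c₀ : ZMod (k + 2), ∀ c : ZMod (k + 2), (∃ d ∈ D, pr k d = c) ↔ c ≠ c₀

/-- TRA: translates. -/
def TRA : Prop :=
  ∀ (k : ℕ) (D : Finset (ZMod (k * (k + 2)))), 1 ≤ k → ADS k D →
    (∀ a, ADS k (D.image (fun d => d + a))) ∧ ∃ a, ∑ d ∈ D.image (fun d => d + a), d = 0

/-- MUA: the multiplier congruence. -/
def MUA : Prop :=
  ∀ (k : ℕ) (D : Finset (ZMod (k * (k + 2)))), 1 ≤ k → ADS k D → (∀ d ∈ D, pr k d ≠ 0) →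
    ∀ p : ℕ, p.Prime → p ∣ k + 1 → ∀ g : ZMod (k * (k + 2)),
      ((((D ×ˢ D).filter (fun q => (p : ZMod (k * (k + 2))) * q.1 - q.2 = g)).card : ℕ) : ZMod p) =
        if pr k g = 0 then 0 else 1

/-- MUB: the multiplier theorem for sets missing the coset `0`. -/
def MUB : Prop :=
  ∀ (k : ℕ) (D : Finset (ZMod (k * (k + 2)))), 1 ≤ k → ADS k D → (∀ d ∈ D, pr k d ≠ 0) →
    ∀ p : ℕ, p.Prime → p ∣ k + 1 →
    (∀ g : ZMod (k * (k + 2)),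
      ((((D ×ˢ D).filter (fun q => (p : ZMod (k * (k + 2))) * q.1 - q.2 = g)).card : ℕ) : ZMod p) =
        if pr k g = 0 then 0 else 1) →
    ∃ h : ZMod (k * (k + 2)), ∀ d ∈ D, (p : ZMod (k * (k + 2))) * d - h ∈ D

/-- FXP: a difference set fixed by all primes dividing the order. -/
def FXP : Prop :=
  ∀ k : ℕ, 1 ≤ k → (∃ D, ADS k D) →
    ∃ D, ADS k D ∧ ∀ p : ℕ, p.Prime → p ∣ k + 1 → ∀ d ∈ D, (p : ZMod (k * (k + 2))) * d ∈ D

/-- FPC: fixed points of a multiplication in a cyclic group. -/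
def FPC : Prop :=
  ∀ (M : ℕ) [NeZero M] (t : ℕ), 1 ≤ t →
    ((Finset.univ : Finset (ZMod M)).filter (fun g => (t : ZMod M) * g = g)).card =
      Nat.gcd (t - 1) M

/-- SBA: the fixed elements of `D`, counted by cosets. -/
def SBA : Prop :=
  ∀ (k : ℕ) (D : Finset (ZMod (k * (k + 2)))), 1 ≤ k → ADS k D → ∀ t : ℕ, 1 ≤ t →
    Nat.Coprime t (k * (k + 2)) → (∀ d ∈ D, (t : ZMod (k * (k + 2))) * d ∈ D) →
    (D.filter (fun d => (t : ZMod (k * (k + 2))) * d = d)).card + 1 = Nat.gcd (t - 1) (k + 2)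

/-- SBB: the fixed elements of the group. -/
def SBB : Prop :=
  ∀ (k : ℕ) [NeZero (k * (k + 2))] (D : Finset (ZMod (k * (k + 2)))), 1 ≤ k → ADS k D →
    ∀ t : ℕ, 1 ≤ t →
    Nat.Coprime t (k * (k + 2)) → (∀ d ∈ D, (t : ZMod (k * (k + 2))) * d ∈ D) →
    3 ≤ Nat.gcd (t - 1) (k + 2) →
    ((Finset.univ : Finset (ZMod (k * (k + 2)))).filter
      (fun g => (t : ZMod (k * (k + 2))) * g = g)).card =
        Nat.gcd (t - 1) (k + 2) * Nat.gcd (t - 1) k ∧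
    ((Finset.univ : Finset (ZMod (k * (k + 2)))).filter
      (fun g => (t : ZMod (k * (k + 2))) * g = g ∧ pr k g = 0)).card = Nat.gcd (t - 1) k

/-- SBC: differences of fixed elements. -/
def SBC : Prop :=
  ∀ (k : ℕ) [NeZero (k * (k + 2))] (D : Finset (ZMod (k * (k + 2)))), 1 ≤ k → ADS k D →
    ∀ t : ℕ, (∀ d ∈ D, (t : ZMod (k * (k + 2))) * d ∈ D) →
    (D.filter (fun d => (t : ZMod (k * (k + 2))) * d = d)).card *
      ((D.filter (fun d => (t : ZMod (k * (k + 2))) * d = d)).card - 1) +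
    ((Finset.univ : Finset (ZMod (k * (k + 2)))).filter
      (fun g => (t : ZMod (k * (k + 2))) * g = g ∧ pr k g = 0)).card =
    ((Finset.univ : Finset (ZMod (k * (k + 2)))).filter
      (fun g => (t : ZMod (k * (k + 2))) * g = g)).card

/-- SBD: the inequality of Bruck. -/
def SBD : Prop :=
  ∀ (k : ℕ) [NeZero (k * (k + 2))] (D : Finset (ZMod (k * (k + 2)))), 1 ≤ k → ADS k D →
    ∀ t : ℕ, (∀ d ∈ D, (t : ZMod (k * (k + 2))) * d ∈ D) →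
    (∃ d ∈ D, (t : ZMod (k * (k + 2))) * d ≠ d) →
    ((Finset.univ : Finset (ZMod (k * (k + 2)))).filter
      (fun g => (t : ZMod (k * (k + 2))) * g = g)).card ≤
    k + (D.filter (fun d => (t : ZMod (k * (k + 2))) * d = d)).card +
      ((Finset.univ : Finset (ZMod (k * (k + 2)))).filter
        (fun g => (t : ZMod (k * (k + 2))) * g = g ∧ pr k g = 0)).card

/-- SUB: the subplane lemma. -/
def SUB : Prop :=
  ∀ (k : ℕ) (D : Finset (ZMod (k * (k + 2)))), 1 ≤ k → ADS k D → ∀ t : ℕ, 1 ≤ t →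
    Nat.Coprime t (k * (k + 2)) → (∀ d ∈ D, (t : ZMod (k * (k + 2))) * d ∈ D) →
    3 ≤ Nat.gcd (t - 1) (k + 2) →
    Nat.gcd (t - 1) k + 2 = Nat.gcd (t - 1) (k + 2) ∧
      (Nat.gcd (t - 1) k ^ 2 ≤ k + 1 ∨ k * (k + 2) ∣ t - 1)

/-- ARI: the arithmetic property. -/
def ARI : Prop := ∀ n : ℕ, IsOrder n → Arith n

/-! ## Part II: classification of composite orders -/

/-- SMD: splitting off the smooth part. -/
def SMD : Prop :=
  ∀ z N : ℕ, 2 ≤ z → 1 ≤ N → ∃ s Y : ℕ, N = s * Y ∧ (∀ q : ℕ, q.Prime → q ∣ Y → z < q) ∧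
    (s ≤ z ∨ ∃ u : ℕ, u ∣ s ∧ z < u ∧ u ≤ z ^ 2)

/-- CLA: classification of the composite numbers with the arithmetic property. -/
def CLA : Prop :=
  ∀ z n : ℕ, 2 ≤ z → 2 ≤ n → ¬ n.Prime → Arith n →
    n ≤ z ∨ E1 z n ∨ E3 z n ∨ E4 z n ∨ E5 z n ∨ E6 z n ∨ E7 z n

/-! ## Part III: counting -/

/-- CNT: basic facts on the counting function. -/
def CNT : Prop :=
  (∀ (E F : ℕ → Prop) (X : ℕ), (∀ n, 1 ≤ n → n ≤ X → E n → F n) → cnt E X ≤ cnt F X) ∧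
  (∀ (E F : ℕ → Prop) (X : ℕ), cnt (fun n => E n ∨ F n) X ≤ cnt E X + cnt F X) ∧
  (∀ (ι : Type) (I : Finset ι) (F : ι → ℕ → Prop) (X : ℕ),
    cnt (fun n => ∃ i ∈ I, F i n) X ≤ ∑ i ∈ I, cnt (F i) X) ∧
  (∀ (a M X : ℕ), 1 ≤ M → (cnt (fun n => n ≡ a [MOD M]) X : ℝ) ≤ (X : ℝ) / M + 1) ∧
  (∀ (E : ℕ → Prop) (X : ℕ), cnt E X ≤ X) ∧
  (∀ z X : ℕ, cnt (fun n => n ≤ z) X ≤ z)

/-- CBA: the numbers with a large fixed subplane. -/
def CBA : Prop :=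
  ∀ z X : ℕ, 2 ≤ z → 1 ≤ X →
    (cnt (E1 z) X : ℝ) ≤ 4 * X / z + 2 * Real.sqrt X + 2

/-- CBC: the numbers with a small order of `p` modulo a large prime factor of `n ^ 2 - 1`. -/
def CBC : Prop :=
  ∀ z X : ℕ, 2 ≤ z → 1 ≤ X →
    (cnt (E3 z) X : ℝ) ≤ 2 * (1 + Real.log X) ^ 2 * X / z ^ 2 +
      2 * z ^ 10 * (1 + Real.log X) * Real.sqrt X

/-- SMO: the number of smooth numbers. -/
def SMO : Prop :=
  ∃ C : ℝ, 0 < C ∧ ∀ X Y : ℕ, 1 ≤ X → 8 ≤ Y →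
    (cnt (Smooth Y) X : ℝ) ≤ X * Real.exp (C * Real.log Y - Real.log X / Real.log Y)

/-- CBD: the numbers `n` with `n + 1` or `n - 1` smooth. -/
def CBD : Prop :=
  ∃ C : ℝ, 0 < C ∧ ∀ z X : ℕ, 2 ≤ z → 1 ≤ X →
    (cnt (E4 z) X : ℝ) ≤ 3 * X * Real.exp (C * Real.log z - Real.log X / (12 * Real.log z))

/-- CBE: two factors congruent to 1 modulo a large number. -/
def CBE : Prop :=
  ∀ z X : ℕ, 2 ≤ z → 1 ≤ X →
    (cnt (E5 z) X : ℝ) ≤ (X + 1) * (1 + Real.log (X + 1)) / z ^ 4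

/-- CBF: numbers in the set `E6`. -/
def CBF : Prop :=
  ∀ z X : ℕ, 2 ≤ z → 1 ≤ X →
    (cnt (E6 z) X : ℝ) ≤ 2 * X * (1 + Real.log X) / z ^ 4

/-- SVA: the sieve bound for one `m`. -/
def SVA : Prop :=
  ∃ C : ℝ, 0 < C ∧ ∀ m X : ℕ, 2 ≤ m → m ^ 4 ≤ X →
    (cnt (fun n => ∃ q q' : ℕ, q.Prime ∧ q'.Prime ∧ n + 1 = (m + 1) * q ∧
      n = (m - 1) * q' + 1) X : ℝ) ≤
      C * (1 + Real.log m) ^ 2 / m ^ 2 * X / Real.log X ^ 2

/-- SVB: the number of members of the special family. -/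
def SVB : Prop :=
  ∃ C : ℝ, 0 < C ∧ ∀ z X : ℕ, 2 ≤ X → z ^ 4 ≤ X →
    (cnt (E7 z) X : ℝ) ≤ C * X / Real.log X ^ 2

/-! ## Part IV: the theorems -/

/-- FNA: structure of the composite orders with few exceptions. -/
def FNA : Prop :=
  ∃ c C : ℝ, 0 < c ∧ ∀ X : ℕ, 2 ≤ X →
    (cnt (fun n => IsOrder n ∧ ¬ n.Prime ∧
      ¬ ∃ m q q' : ℕ, 2 ≤ m ∧ (m : ℝ) ≤ Real.exp (c * Real.sqrt (Real.log X)) ∧ q.Prime ∧
        q'.Prime ∧ n + 1 = (m + 1) * q ∧ n - 1 = (m - 1) * q') X : ℝ) ≤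
      C * X * Real.exp (-(c * Real.sqrt (Real.log X)))

/-- FNB: composite orders are rare. -/
def FNB : Prop :=
  ∃ C : ℝ, ∀ X : ℕ, 2 ≤ X →
    (cnt (fun n => IsOrder n ∧ ¬ n.Prime) X : ℝ) ≤ C * X / Real.log X ^ 2

/-- BOS: every prime is an order. -/
def BOS : Prop := ∀ p : ℕ, p.Prime → IsOrder p

/-- ASY: the number of orders of cyclic affine planes up to `X` is asymptotic to `X / log X`. -/
def ASY : Prop :=
  Filter.Tendsto (fun X : ℕ => (cnt IsOrder X : ℝ) / (X / Real.log X)) Filter.atTop (nhds 1)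

end Pool.Agent.CAP
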