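import Pool.Agent.Helper37_CAP.Fin
import Pool.Agent.Helper37_CAP.Cla
import Pool.Agent.Helper37_CAP.Asy
import Pool.Agent.Helper37_CAP.Cba
import Pool.Agent.Helper76_CAP.Sba
import Pool.Agent.Helper76_CAP.Sbc
import Pool.Agent.Helper33_CAP.Cbe
import Pool.Agent.Helper51_CAP.Fxp
import Pool.Agent.Helper51_CAP.Sbb
import Pool.Agent.Helper59_CAP.Sbd
import Pool.Agent.Helper46_CAP.Fn
import Pool.Agent.Helper31_CAP.Fpc
import Pool.Agent.Helper31_CAP.Mub
import Pool.Agent.Helper97_CAP.Mua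
import Pool.Agent.Helper58_CAP.DseTra
import Pool.Agent.Helper39_CAP.Pla
import Pool.Agent.Helper39_CAP.Pln
import Pool.Agent.Helper10_CAP.Bos
import Pool.Agent.Helper10_CAP.Smo
import Pool.Agent.Helper67_CAP.Sva
import Pool.Agent.Helper69_CAP.Svb
import Pool.Agent.Helper69_CAP.Cbf
import Pool.Agent.Helper70_CAP.SmdCnt
import Pool.Agent.Helper84_CAP.Cbc
import Pool.Agent.Helper20_CAP.Cbd

/-!
# Squad CAP: wiring of the modules
-/

set_option autoImplicit false

open Finset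

namespace Pool.Agent.CAP.H37

/-- the two main estimates -/
theorem both : FNA ∧ FNB := by
  have hDSE : DSE := H58.dse
  have hTRA : TRA := H58.tra
  have hMUA : MUA := H97.mua hDSE
  have hMUB : MUB := H31.mub hDSE
  have hFXP : FXP := H51.fxp hDSE hTRA hMUA hMUB
  have hFPC : FPC := H31.fpc
  have hSBA : SBA := H76.sba hDSE hFPC
  have hSBB : SBB := H51.sbb hDSE hFPC hSBA
  have hSBC : SBC := H76.sbc
  have hSBD : SBD := H59.sbd
  have hSUB : SUB := H59.sub hSBA hSBB hSBC hSBD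
  have hARI : ARI := H59.ari H39.pla H39.pln hFXP hSUB
  have hCLA : CLA := cla H70.smd
  have hCNT : CNT := H70.cnt_basic
  have hCBA : CBA := cba hCNT
  have hCBC : CBC := H84.cbc hCNT
  have hCBD : CBD := H20.cbd hCNT H10.smo
  have hCBE : CBE := H33.cbe hCNT
  have hCBF : CBF := H69.cbf hCNT
  have hSVB : SVB := H69.svb H67.sva hCNT
  have hFNA : FNA := H46.fna hARI hCLA hCNT hCBA hCBC hCBD hCBE hCBF
  have hFNB : FNB := H46.fnb hARI hCLA hCNT hCBA hCBC hCBD hCBE hCBF hSVB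
  exact ⟨hFNA, hFNB⟩

end Pool.Agent.CAP.H37
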